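import Pool.Agent.TH890.FN.Low

/-!
Beilinson's conjecture for `K_{2k-1}` of all abelian extensions `L/K` of number fields (`k > 1`
fixed), character by character: for every linear character `ψ` of every number field `K` and every
automorphism `σ` of `ℂ`, the number `D_σ(K, ψ) = σ(A(K, ψ)) / A(K, σ ψ)` is equal to `1`, where
`A(K, ψ)` is the quotient of the leading term of `L(ψ, s)` at `s = 1 - k` by the regulator. These
numbers are defined for all virtual Artin characters, are multiplicative and invariant under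
induction, and are equal to `1` for trivial `ψ` (Borel).
-/

open Pool.Agent.TH965.Stk Pool.Agent.TH890.FN

namespace Pool.Agent.Results.MP_a93ca1_nt.RestrictedCharacters

/-- The conjecture, up to factors in `T`, fails for the linear character `ψ` of `K`. -/
def Fails (A : (ℂ ≃+* ℂ) → Family ℂˣ) (T : Subgroup ℂˣ) (K : SubQ) (ψ : LinChar K) : Prop :=
  ∃ σ, (A σ).D K ψ.fn ∉ T

/-- It fails for the twist of `ψ` by the quadratic character of `K(s)/K`. -/
def TwistFails (A : (ℂ ≃+* ℂ) → Family ℂˣ) (T : Subgroup ℂˣ) (K : SubQ) (ψ : LinChar K)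
    (s : AlgebraicClosure ℚ) : Prop :=
  ∃ φ : LinChar K, IsTwist ψ s φ ∧ Fails A T K φ

/-- It fails for the restriction of `ψ` to `K(s)`. -/
def LiftFails (A : (ℂ ≃+* ℂ) → Family ℂˣ) (T : Subgroup ℂˣ) (K : SubQ) (ψ : LinChar K)
    (s : AlgebraicClosure ℚ) : Prop :=
  ∃ φ : LinChar (adj K s), IsLift ψ s φ ∧ Fails A T (adj K s) φ

open Classical in
/-- There is a finite set `S` of square roots `s = √t` of elements of `K^×` such that among the
`2 #S` pairs `(K, ψ χ_t)`, `(K(√t), ψ)` there are fewer than `#S` for which the conjecture, up to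
factors in `T`, fails. -/
def MoreThanHalf (A : (ℂ ≃+* ℂ) → Family ℂˣ) (T : Subgroup ℂˣ) (K : SubQ) (ψ : LinChar K) : Prop :=
  ∃ S : Finset (AlgebraicClosure ℚ), (∀ s ∈ S, s ≠ 0 ∧ s ^ 2 ∈ K.toIF) ∧
    (S.filter fun s => TwistFails A T K ψ s).card +
      (S.filter fun s => LiftFails A T K ψ s).card < S.card

theorem either (A : (ℂ ≃+* ℂ) → Family ℂˣ) (T : Subgroup ℂˣ) (K : SubQ) (hK : IsNF K)
    (ψ : LinChar K) (h : Fails A T K ψ) (s : AlgebraicClosure ℚ) (hs0 : s ≠ 0)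
    (hs : s ^ 2 ∈ K.toIF) : TwistFails A T K ψ s ∨ LiftFails A T K ψ s := by
  obtain ⟨σ, hσ⟩ := h
  rcases dichotomy (quotF (A σ) T) hK hs0 hs ψ (fun h' => hσ ((quotF_eq _ _ _ _).1 h')) with
    ⟨φ, h1, h2⟩ | ⟨φ, h1, h2⟩
  · exact Or.inl ⟨φ, h1, σ, fun h' => h2 ((quotF_eq _ _ _ _).2 h')⟩
  · exact Or.inr ⟨φ, h1, σ, fun h' => h2 ((quotF_eq _ _ _ _).2 h')⟩

theorem not_half (A : (ℂ ≃+* ℂ) → Family ℂˣ) (T : Subgroup ℂˣ) (K : SubQ) (hK : IsNF K)
    (ψ : LinChar K) (h : Fails A T K ψ) : ¬ MoreThanHalf A T K ψ := by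
  classical
  rintro ⟨S, hS, hlt⟩
  refine absurd (card_two S (fun s => TwistFails A T K ψ s) (fun s => LiftFails A T K ψ s)
    fun s hs => either A T K hK ψ h s (hS s hs).1 (hS s hs).2) (not_le.2 ?_)
  convert hlt

theorem half_of (A : (ℂ ≃+* ℂ) → Family ℂˣ) (T : Subgroup ℂˣ)
    (H : ∀ σ K, IsNF K → ∀ ψ : LinChar K, (A σ).D K ψ.fn ∈ T) (K : SubQ) (hK : IsNF K)
    (ψ : LinChar K) : MoreThanHalf A T K ψ := by
  classical
  refine ⟨{1}, ?_, ?_⟩
  · intro s hs
    rw [Finset.mem_singleton] at hs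
    subst hs
    exact ⟨one_ne_zero, by rw [one_pow]; exact one_mem _⟩
  · rw [Finset.filter_false_of_mem, Finset.filter_false_of_mem]
    · simp
    · rintro s - ⟨φ, -, σ, h⟩
      exact h (H σ _ (Pool.Agent.TH965.St.nf_sup hK (Pool.Agent.TH965.St.nf_adjoin s)) φ)
    · rintro s - ⟨φ, -, σ, h⟩
      exact h (H σ K hK φ)

/-- Assume that `D_σ(K, ψ) = 1` for trivial `ψ`.

1. `D_σ(K, ψ) = 1` for all `σ`, `K`, `ψ` if and only if, for each `(K, ψ)` such that `K` has at
   least `N` complex places, `ψ` takes the value `e` at all real places, `ψ` has order larger than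
   two, and `K` is totally complex or the order of `ψ` is a power of two, there is a finite set `S`
   of elements `t` of `K^×` such that fewer than `#S` of the `2 #S` pairs `(K, ψ χ_t)`,
   `(K(√t), ψ)` are exceptions.
2. Let `T` be a subgroup of `ℂˣ` closed under square roots (the roots of unity of 2-power order;
   the algebraic numbers). `D_σ(K, ψ) ∈ T` for all `σ`, `K`, `ψ` if and only if, for each `(K, ψ)`
   such that `K` is totally complex with at least `N` complex places and `ψ` has order larger than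
   two, there is a finite set `S` as in 1 (exceptions modulo `T`). -/
theorem result (A : (ℂ ≃+* ℂ) → Family ℂˣ)
    (hB : ∀ σ K, IsNF K → ∀ ψ : LinChar K, (∀ g, ψ.hom g = 1) → (A σ).D K ψ.fn = 1) (N : ℕ) :
    (∀ e : ℂˣ, e = 1 ∨ e = -1 →
      ((∀ σ K, IsNF K → ∀ ψ : LinChar K, (A σ).D K ψ.fn = 1) ↔
        ∀ K, IsNF K → N ≤ r2 K → ∀ ψ : LinChar K, ψ.HasSign e →
          (IsTC K ∨ ∃ a : ℕ, ∀ g, ψ.hom g ^ (2 ^ a) = 1) → (∃ g, ψ.hom g ^ 2 ≠ 1) →
          MoreThanHalf A ⊥ K ψ)) ∧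
    ∀ T : Subgroup ℂˣ, (∀ x : ℂˣ, x * x ∈ T → x ∈ T) →
      ((∀ σ K, IsNF K → ∀ ψ : LinChar K, (A σ).D K ψ.fn ∈ T) ↔
        ∀ K, IsNF K → N ≤ r2 K → IsTC K → ∀ ψ : LinChar K, (∃ g, ψ.hom g ^ 2 ≠ 1) →
          MoreThanHalf A T K ψ) := by
  refine ⟨fun e he => ⟨fun H K hK hN ψ h1 h2 h3 => half_of A ⊥ (fun σ K hK ψ => ?_) K hK ψ,
    fun H σ K hK ψ => ?_⟩, fun T hT => ⟨fun H K hK hN h1 ψ h2 => half_of A T H K hK ψ,
    fun H σ K hK ψ => ?_⟩⟩
  · rw [Subgroup.mem_bot]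
    exact H σ K hK ψ
  · refine (main2 (A σ) N e he).2 (fun K hK hN ψ h1 h2 => ?_) K hK _ (by
      rw [← virt_old]
      exact Pool.Agent.TH965.St.fn_mem_virt hK ψ.old)
    by_cases h3 : ∃ g, ψ.hom g ^ 2 ≠ 1
    · by_contra hne
      exact not_half A ⊥ K hK ψ ⟨σ, fun h => hne (Subgroup.mem_bot.1 h)⟩
        (H K hK hN ψ h1 h2 h3)
    · push Not at h3
      exact quad_known (A σ) (hB σ) hK ψ h3
  · refine (main3 T hT (A σ) N).2 (fun K hK hN ψ h1 => ?_) K hK _ (by
      rw [← virt_old]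
      exact Pool.Agent.TH965.St.fn_mem_virt hK ψ.old)
    by_cases h3 : ∃ g, ψ.hom g ^ 2 ≠ 1
    · rcases h1 with h1 | h1
      · by_contra hne
        exact not_half A T K hK ψ ⟨σ, hne⟩ (H K hK hN h1 ψ h3)
      · obtain ⟨g, hg⟩ := h3
        rw [h1 g, one_pow] at hg
        exact absurd rfl hg
    · push Not at h3
      rw [quad_known (A σ) (hB σ) hK ψ h3]
      exact T.one_mem

end Pool.Agent.Results.MP_a93ca1_nt.RestrictedCharacters
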