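import Pool.Agent.TH72.SR.Final

/-!
# Beilinson's conjecture for `K_{2k-1}` of abelian extensions and base change to totally real fields
in which all small primes split completely
-/

set_option autoImplicit false

open NumberField Pool.Agent.TH965.St Pool.Agent.TH349.ORP Pool.Agent.TH72.SR

namespace Pool.Agent.Results.MP_a93ca1_nt.SplitBaseChange

/-- `M` is a Galois number field with `M ∩ F = ℚ` -/
def Adm (F M : IntermediateField ℚ Qb) : Prop :=
  NumberField M ∧ IsGalois ℚ M ∧ M ⊓ F = ⊥

/-- The triples `x = (L/K, χ)`, `L/K` an abelian extension of number fields, `χ` a character of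
`Gal(L/K)` with values in the number field `E`, and the facts used about them (`k > 1` is fixed).
Elements of `E ⊗ ℂ = ℂ^Hom(E, ℂ)` are functions on the set of embeddings `E →+* ℂ`. -/
structure Characters (E : Type) [Field E] where
  /-- the triples `(L/K, χ)` -/
  X : Type
  /-- the field `L` -/
  fld : X → IntermediateField ℚ Qb
  /-- the quotient of the leading coefficients `(L*(σχ⁻¹, 1-k))_σ` by the determinant of the regulator
  with respect to bases over `E` of the `χ`-parts of `K_{2k-1}(L)` and of `B_L^+`, in `E ⊗ ℂ` -/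
  val : X → (E →+* ℂ) → ℂ
  /-- the triple `(LM/KM, χ)` -/
  bc : X → IntermediateField ℚ Qb → X
  /-- `L` is a number field -/
  nf : ∀ x, NumberField (fld x)
  /-- the quotient is a unit of `E ⊗ ℂ` (Borel) -/
  val_ne : ∀ x σ, val x σ ≠ 0
  /-- `(Lℚ/Kℚ, χ)` is `(L/K, χ)` -/
  bc_bot : ∀ x, bc x ⊥ = x
  /-- modulo `E^×` the quotients of `(LM/KM, χ)` are given by the permutation characters of the `M`
  (Artin formalism and Galois descent for `K_{2k-1} ⊗ ℚ`) -/
  mult : ∀ (x : X) (n n' : ℕ) (M : Fin n → IntermediateField ℚ Qb)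
    (M' : Fin n' → IntermediateField ℚ Qb),
    (∀ a, Adm (fld x) (M a)) → (∀ b, Adm (fld x) (M' b)) →
    (∀ g : GQ, ∑ a, perm (M a) g = ∑ b, perm (M' b) g) →
    ∃ q : E, q ≠ 0 ∧ ∀ σ, ∏ a, val (bc x (M a)) σ = σ q * ∏ b, val (bc x (M' b)) σ

section

variable {E : Type} [Field E]

/-- the `χ`-part of the equality of Q1 for `x = (L/K, χ)`: the quotient is in `E^×` -/
def Characters.Formula (T : Characters E) (x : T.X) : Prop :=
  ∃ e : E, e ≠ 0 ∧ ∀ σ, T.val x σ = σ e

end

/-- for every triple `x = (L/K, χ)` with `L` contained in `F`: the formula for the triples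
`(LM/KM, χ)`, `M` one of `M₁, ..., M_r`, implies the formula for `x` -/
def Suffices (F : IntermediateField ℚ Qb) {r : ℕ} (M : Fin r → IntermediateField ℚ Qb) : Prop :=
  ∀ (E : Type) [Field E] [NumberField E] (T : Characters E) (x : T.X), T.fld x ≤ F →
    (∀ a, T.Formula (T.bc x (M a))) → T.Formula x

theorem adm_of {N : ℕ} {F F' M : IntermediateField ℚ Qb} (h : SplitReal N F M) (hF : F' ≤ F) :
    Adm F' M := by
  refine ⟨h.1, h.2.1, ?_⟩
  rw [eq_bot_iff, ← h.2.2.2.1]
  exact inf_le_inf_left M hF

theorem adm_bot (F : IntermediateField ℚ Qb) : Adm F ⊥ := by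
  refine ⟨nf_bot, ?_, bot_inf_eq F⟩
  have h : (⊥ : IntermediateField ℚ Qb).fixingSubgroup.Normal := by
    rw [IntermediateField.fixingSubgroup_bot]; infer_instance
  exact (InfiniteGalois.normal_iff_isGalois ⊥).1 h

theorem prod_formula {E : Type} [Field E] {T : Characters E} {n : ℕ} (y : Fin n → T.X)
    (h : ∀ a, T.Formula (y a)) : ∃ e : E, e ≠ 0 ∧ ∀ σ, ∏ a, T.val (y a) σ = σ e := by
  choose e he h1 using h
  refine ⟨∏ a, e a, Finset.prod_ne_zero_iff.2 fun a _ => he a, fun σ => ?_⟩
  rw [map_prod]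
  exact Finset.prod_congr rfl fun a _ => h1 a σ

theorem main {E : Type} [Field E] (T : Characters E) (x : T.X) {n n' : ℕ}
    {M : Fin n → IntermediateField ℚ Qb} {M' : Fin n' → IntermediateField ℚ Qb}
    (h1 : ∀ a, Adm (T.fld x) (M a)) (h2 : ∀ b, Adm (T.fld x) (M' b))
    (h5 : ∀ g : GQ, ∑ a, perm (M a) g = 1 + ∑ b, perm (M' b) g)
    (h3 : ∀ a, T.Formula (T.bc x (M a))) (h4 : ∀ b, T.Formula (T.bc x (M' b))) :
    T.Formula x := by
  let M1 : Fin (n' + 1) → IntermediateField ℚ Qb := Fin.cons ⊥ M'
  have a1 : ∀ b, Adm (T.fld x) (M1 b) := by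
    intro b
    refine Fin.cases ?_ (fun i => ?_) b
    · exact adm_bot _
    · exact h2 i
  obtain ⟨q, hq, b1⟩ := T.mult x n (n' + 1) M M1 h1 a1 (by
    intro g
    rw [Fin.sum_univ_succ, h5 g]
    have : perm (M1 0) g = 1 := perm_bot g
    rw [this]
    rfl)
  obtain ⟨e, he, c1⟩ := prod_formula (fun a => T.bc x (M a)) h3
  obtain ⟨e', he', c2⟩ := prod_formula (fun b => T.bc x (M' b)) h4
  refine ⟨e / (q * e'), div_ne_zero he (mul_ne_zero hq he'), fun σ => ?_⟩
  have hσ : ∀ z : E, z ≠ 0 → σ z ≠ 0 := fun z hz h => hz (σ.injective (by rw [h, map_zero]))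
  have b3 := b1 σ
  rw [Fin.prod_univ_succ, c1 σ] at b3
  have e0 : M1 0 = ⊥ := rfl
  have b4 : ∏ b : Fin n', T.val (T.bc x (M1 b.succ)) σ = σ e' := c2 σ
  rw [e0, T.bc_bot, b4] at b3
  rw [map_div₀, map_mul, eq_div_iff (mul_ne_zero (hσ q hq) (hσ e' he')), b3]
  ring

/-- **Beilinson's conjecture for `K_{2k-1}` of abelian extensions and split base change.** Let
`N ≥ 0` and let `F` be a number field. There are finitely many Galois number fields `M₁, ..., M_r`,
totally real, of degree at least `N`, with commutative Galois groups of exponent `2` or `3`, with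
`M_a ∩ F = ℚ`, in which all primes `p ≤ N` split completely, such that for every abelian extension
`L/K` of number fields, `L` contained in `F`, and every character `χ` of its group: the `χ`-part of the
equality of Q1 for the extensions `LM_a/KM_a` implies the one for `L/K`. Hence Q1 for all `L/K` is
equivalent to Q1 for the `LM/KM`, `M` a field as above for `F = L`. -/
theorem result (N : ℕ) :
    (∀ F : IntermediateField ℚ Qb, NumberField F → ∃ (r : ℕ) (M : Fin r → IntermediateField ℚ Qb),
      (∀ a, SplitReal N F (M a)) ∧ Suffices F M) ∧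
    ∀ (E : Type) [Field E] [NumberField E] (T : Characters E),
      (∀ x, T.Formula x) ↔ ∀ x M, SplitReal N (T.fld x) M → T.Formula (T.bc x M) := by
  have key : ∀ F : IntermediateField ℚ Qb, NumberField F →
      ∃ (r : ℕ) (M : Fin r → IntermediateField ℚ Qb), (∀ a, SplitReal N F (M a)) ∧
        Suffices F M := by
    intro F hF
    obtain ⟨n, M, n', M', h3, h4, h5⟩ := trivial_character N F hF
    refine ⟨n + n', Fin.append M M', fun a => ?_, ?_⟩
    · refine Fin.addCases (fun i => ?_) (fun i => ?_) a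
      · rw [Fin.append_left]; exact h3 i
      · rw [Fin.append_right]; exact h4 i
    · intro E _ _ T x hx hc
      refine main T x (fun a => adm_of (h3 a) hx) (fun b => adm_of (h4 b) hx) h5 (fun a => ?_)
        (fun b => ?_)
      · have := hc (Fin.castAdd n' a)
        rwa [Fin.append_left] at this
      · have := hc (Fin.natAdd n b)
        rwa [Fin.append_right] at this
  refine ⟨key, fun E _ _ T => ⟨fun H x M _ => H _, fun H x => ?_⟩⟩
  obtain ⟨r, M, h1, h2⟩ := key (T.fld x) (T.nf x)
  exact h2 E T x le_rfl fun a => H x (M a) (h1 a)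

end Pool.Agent.Results.MP_a93ca1_nt.SplitBaseChange
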